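import Pool.Agent.Q138.PS.VX
import Pool.Agent.Q138.PS.VY
import Pool.Agent.Q138.AI.R301213

/-!
# Hoffman's conjecture weight by weight, and multiple polylogarithms at `1/t` and `1 - 1/t`, `t` close to `α P(n)`

`Li_s(x) = ∑_{n_1 > … > n_k ≥ 1} x^{n_1} / (n_1^{s_1} ⋯ n_k^{s_k})`, weight `|s| = s_1 + ⋯ + s_k`.

Let `q ≥ 2`. Outside a set of real numbers of Hausdorff dimension at most `q / (q + 1 / (q 2 ^ (q - 1)))` (that is `8 / 9` for
`q = 2`) every `α > 0` has the following property. There is `η > 0` such that the properties `A` of integers named below are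
RARE along `α P(n)`: there is `κ > 0` such that for all large `N` and ALL integral polynomials `P` of degree `q` with positive
leading coefficient and coefficients of size at most `N ^ η`, for all but `N ^ (1 - κ)` of the `n ≤ N`, NO integer `t ≥ b` (`b = 2`
or `3`) with `|t - ⌊α P(n)⌋| ≤ N ^ κ` has the property `A`.

* For every finite set `F` of admissible indices and every `N`: if for each `k ≤ N` the `ζ(s)`, `s ∈ F`, `|s| = k`, are linearly
  independent over `ℚ`, then it is rare that the numbers `log(1/t)^a Li_r(1/t) Li_s(1 - 1/t)`, `a ≥ 0`, `r` any index, `s ∈ F`,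
  `a + |r| + |s| = N`, are linearly dependent.
* Let `F` be the set of the words in `2`, `3`, and assume Brown's theorem. For each `N` the Hoffman elements of weight `k` are a
  basis of the space of the multiple zeta values of weight `k` for all `k ≤ N` if and only if it is rare that these numbers are
  linearly dependent, and if and only if it is rare that they are not a basis of the space spanned by the products
  `Li_s(1 - 1/t) Li_r(1/t)`, `|s| + |r| = N`.
* So the conjecture holds in all weights if and only if this is rare for infinitely many `N`.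
-/

set_option autoImplicit false

namespace Pool.Agent.Results.MP_301213_nt.BasesAlongRealMultiples

open Filter Module Pool.Agent.Q138.PS Pool.Agent.Q138.AI.R301213

/-- **Theorem.** -/
theorem result (q : ℕ) (hq : 2 ≤ q) :
    ∃ E : Set ℝ, dimH E ≤ ENNReal.ofReal (q / (q + 1 / ((q : ℝ) * 2 ^ (q - 1)))) ∧ ∀ α : ℝ, 0 < α → α ∉ E →
      ∃ η : ℝ, 0 < η ∧
      (∀ F : Finset (List ℕ), (∀ s ∈ F, Admissible s) → ∀ N : ℕ,
        (∀ k ≤ N, LinearIndependent ℚ (fun s : {s : List ℕ // s ∈ F ∧ s.sum = k} => zeta s.1)) →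
          Rare q α η 3 fun n => ¬ LinearIndependent ℚ (fun p : Index (fun s => s ∈ F) N => value n p.1)) ∧
      (Brown → ∀ N : ℕ,
        ((∀ k ≤ N, IsBasis k) ↔ Rare q α η 3 fun n => ¬ LinearIndependent ℚ (fun p : Index Word N => value n p.1)) ∧
        ((∀ k ≤ N, IsBasis k) ↔ Rare q α η 3 fun n => ¬ BasisAt n N)) ∧
      (Brown → ((∀ k, IsBasis k) ↔ ∀ N₀ : ℕ, ∃ N, N₀ ≤ N ∧
        Rare q α η 3 fun n => ¬ LinearIndependent ℚ (fun p : Index Word N => value n p.1))) := by
  obtain ⟨hF, hB1, hB2⟩ := Pool.Agent.Q138.AI.R301213.result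
  obtain ⟨E, hE, hg⟩ := rare_ae (ι := (Finset (List ℕ) × ℕ) ⊕ ℕ) q hq
    (Sum.elim (fun i n => ¬ LinearIndependent ℚ (fun p : Index (fun s => s ∈ i.1) i.2 => value n p.1))
      (fun N n => ¬ BasisAt n N))
  refine ⟨E, hE, fun α hα hαE => ?_⟩
  obtain ⟨η, hη, h1⟩ := hg α hα hαE
  have key : Brown → ∀ N : ℕ,
        ((∀ k ≤ N, IsBasis k) ↔ Rare q α η 3 fun n => ¬ LinearIndependent ℚ (fun p : Index Word N => value n p.1)) ∧
        ((∀ k ≤ N, IsBasis k) ↔ Rare q α η 3 fun n => ¬ BasisAt n N) := by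
    intro hB N
    have e1 : (∀ k ≤ N, IsBasis k) → Rare q α η 3 fun n => ¬ BasisAt n N := fun h =>
      h1 (Sum.inr N) 3 ((hB1 hB N).2.1 h)
    have e2 : (Rare q α η 3 fun n => ¬ BasisAt n N) →
        Rare q α η 3 fun n => ¬ LinearIndependent ℚ (fun p : Index Word N => value n p.1) := fun h =>
      h.mono le_rfl fun t _ ht hb => ht hb.1
    have e3 : (Rare q α η 3 fun n => ¬ LinearIndependent ℚ (fun p : Index Word N => value n p.1)) →
        ∀ k ≤ N, IsBasis k := by
      intro h
      obtain ⟨n, hn, hn'⟩ := h.exists_not hη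
      exact (hB1 hB N).1.2 ⟨n, by omega, not_not.1 hn'⟩
    exact ⟨⟨fun h => e2 (e1 h), e3⟩, ⟨e1, fun h => e3 (e2 h)⟩⟩
  refine ⟨η, hη, fun F hFa N hN => ?_, key, fun hB => ?_⟩
  · exact h1 (Sum.inl (F, N)) 3 (hF (fun s => s ∈ F) hFa N hN)
  · constructor
    · intro h N₀
      exact ⟨N₀, le_rfl, (key hB N₀).1.1 fun k _ => h k⟩
    · intro h
      refine (hB2 hB).2 fun N₀ => ?_
      obtain ⟨N, hN, hR⟩ := h N₀
      obtain ⟨n, hn, hn'⟩ := hR.exists_not hη
      exact ⟨N, n, hN, by omega, not_not.1 hn'⟩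

end Pool.Agent.Results.MP_301213_nt.BasesAlongRealMultiples
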