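import Pool.Agent.Q189.SP.WBasis

/-!
# Hoffman's conjecture from one integer for each weight

Let `F` be the set of the words in `2`, `3`, and assume Brown's theorem (the family `H_{k,k}` of the `ζ(s)`, `s ∈ F`, `|s| = k`,
spans `Z_k`). For `n ≥ 2` consider the family of the numbers `log(1/n)^a Li_t(1/n) Li_s(1 - 1/n)`, `a ≥ 0`, `t` any index, `s ∈ F`,
`a + |t| + |s| = N`, and let `V n N` be the `ℚ`-span of the products `Li_s(1 - 1/n) Li_t(1/n)` with `|s| + |t| = N`. For each `N` the
following are equivalent: `H_{k,k}` is a basis of `Z_k` for all `k ≤ N`; for ONE `n ≥ 2` the family is linearly independent; for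
all but `C T^(1-c)` of the `n ≤ T` it is a basis of `V n N`. So the conjecture holds for all weights if and only if for
infinitely many weights `N` there is one `n ≥ 2` such that these explicit numbers of weight `N` are linearly independent.

The definitions and the proof are in `Pool.Agent.Q189.SP.WBasis`.
-/

set_option autoImplicit false

open Module

namespace Pool.Agent.Results.MP_301213_nt.BasisFromOneInteger

open Pool.Agent.Q189.SP.WBasis (Word zeta IsBasis Brown Index value BasisAt)

/-- (1) the criterion for the weights up to `N` by one `n`, and by almost all `n`; (2) the criterion for all weights. -/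
theorem result (hB : Brown) :
    (∀ N : ℕ,
      ((∀ k ≤ N, IsBasis k) ↔ ∃ n : ℕ, 2 ≤ n ∧ LinearIndependent ℚ (fun p : Index Word N => value n p.1)) ∧
      ((∀ k ≤ N, IsBasis k) ↔ ∃ C c : ℝ, 0 < c ∧ ∀ T : ℕ, 1 ≤ T →
          (({n : ℕ | 3 ≤ n ∧ n ≤ T ∧ ¬ BasisAt n N}.ncard : ℕ) : ℝ) ≤ C * (T : ℝ) ^ (1 - c))) ∧
    ((∀ k, IsBasis k) ↔ ∀ N₀ : ℕ, ∃ N n : ℕ, N₀ ≤ N ∧ 2 ≤ n ∧
      LinearIndependent ℚ (fun p : Index Word N => value n p.1)) :=
  ⟨Pool.Agent.Q189.SP.WBasis.joined.2.1 hB, Pool.Agent.Q189.SP.WBasis.joined.2.2 hB⟩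

end Pool.Agent.Results.MP_301213_nt.BasisFromOneInteger
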