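import Pool.Agent.Q189.SP.WBasis

/-!
# Independent families of multiple zeta values give independent families of values at almost all integers

For a set `F` of admissible indices and `N ≥ 0` consider the family of the numbers `log(1/n)^a Li_t(1/n) Li_s(1 - 1/n)`, `a ≥ 0`, `t` any
index, `s ∈ F`, `a + |t| + |s| = N`. If for each `k ≤ N` the multiple zeta values `ζ(s)`, `s ∈ F`, `|s| = k`, are linearly independent over
`ℚ`, then this family is linearly independent over `ℚ` for all but `C T^(1-c)` of the integers `3 ≤ n ≤ T`.

The definitions and the proof are in `Pool.Agent.Q189.SP.WBasis`. The companion `BasisFromOneInteger` is the converse for the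
words in `2`, `3`, given Brown's theorem.
-/

set_option autoImplicit false

open Module

namespace Pool.Agent.Results.MP_301213_nt.IndependentFamiliesAtIntegers

open Pool.Agent.Q189.SP.WBasis (Admissible zeta Index value)

theorem result (F : List ℕ → Prop) (hF : ∀ s, F s → Admissible s) (N : ℕ)
    (h : ∀ k ≤ N, LinearIndependent ℚ (fun s : {s : List ℕ // F s ∧ s.sum = k} => zeta s.1)) :
    ∃ C c : ℝ, 0 < c ∧ ∀ T : ℕ, 1 ≤ T → (({n : ℕ | 3 ≤ n ∧ n ≤ T ∧
      ¬ LinearIndependent ℚ (fun p : Index F N => value n p.1)}.ncard : ℕ) : ℝ) ≤ C * (T : ℝ) ^ (1 - c) :=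
  Pool.Agent.Q189.SP.WBasis.joined.1 F hF N h

end Pool.Agent.Results.MP_301213_nt.IndependentFamiliesAtIntegers
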