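import Pool.Agent.Q187.ZD.HofMain

/-!
# Hoffman's conjecture: it suffices to treat the words with a fixed factor in infinitely many weights

`words N` is the set of the words in the letters `2, 3` of weight `N`, `HBasis k` says that the
Hoffman elements of weight `k` are a basis of the space of multiple zeta values of weight `k`. A
linearly independent subfamily of the Hoffman elements of some weight `N ≥ k`, from which fewer
than `d_(N-k)` words are missing, gives `HBasis k`. Almost all words contain a given factor `v`, so
Hoffman's conjecture is equivalent to the independence of the `ζ(w)` for the words `w` of weight `N`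
which contain `v`, for infinitely many `N`.
-/

set_option autoImplicit false

namespace Pool.Agent.Results.MP_301213_nt.WordsWithAFactor

open Pool.Agent.H447R2.MZ (val Zs)
open Pool.Agent.Q187.ZD
open Pool.Agent.Q187.ZD.Hof

theorem result {H : Type} [CommRing H] [Algebra ℚ H] (gr : ℕ → Submodule ℚ H) (per : H →ₐ[ℚ] ℝ)
    (hm : IsMotivic (fun n => (words n).card) Zs gr per) (hB : Brown) :
    (∀ k N, k ≤ N → ∀ F : Finset (List ℕ), F ⊆ words N →
      LinearIndepOn ℚ val (F : Set (List ℕ)) →
      (words N \ F).card < (words (N - k)).card → HBasis k) ∧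
    (∀ v, Word v → ∀ k, ∃ N₀, ∀ N ≥ N₀,
      LinearIndepOn ℚ val {w | Word w ∧ w.sum = N ∧ v <:+: w} → HBasis k) ∧
    (∀ v, Word v → ((∀ k, HBasis k) ↔
      {N | LinearIndepOn ℚ val {w | Word w ∧ w.sum = N ∧ v <:+: w}}.Infinite)) :=
  ⟨fun _ _ hk F hF hi hc => hom_family hm hB hk F hF hi hc,
    fun v hv k => hom_factor hm hB v hv k, fun v hv => hom_iff hm hB v hv⟩

end Pool.Agent.Results.MP_301213_nt.WordsWithAFactor
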